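import Mathlib

namespace Pool.Agent.Results.MP_16080b_co.Counter

/-- Colour `a` may be given to the picked vertex `v` in the current (possibly incomplete) colouring `c`. -/
def Allowed {V : Type} {k : ℕ} (G : SimpleGraph V) (c : V → Option (Fin k)) (v : V) (a : Fin k) :
    Prop :=
  c v ≠ some a ∧ ∀ u, G.Adj v u → c u ≠ some a

open Classical in
/-- The set of vertices already picked in the current round, after `v` is picked. -/
noncomputable def nextPicked {V : Type} (P : Set V) (v : V) : Set V :=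
  if insert v P = Set.univ then ∅ else insert v P

/-- Bob can force his win within `t` turns; the flag is `true` when Alice is to move. -/
def BobWins {V : Type} [DecidableEq V] (G : SimpleGraph V) (k : ℕ) :
    ℕ → (V → Option (Fin k)) → Set V → Bool → Prop
  | 0, _, _, _ => False
  | t + 1, c, P, true => ∀ v, v ∉ P → ∀ a, Allowed G c v a →
      BobWins G k t (Function.update c v (some a)) (nextPicked P v) false
  | t + 1, c, P, false => ∃ v, v ∉ P ∧ ((∀ a, ¬ Allowed G c v a) ∨ ∃ a, Allowed G c v a ∧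
      BobWins G k t (Function.update c v (some a)) (nextPicked P v) true)

abbrev St : SimpleGraph (Fin 5) := SimpleGraph.fromRel fun u _ => u = 0

theorem mono {k : ℕ} : ∀ (t : ℕ) (c : Fin 5 → Option (Fin k)) (P : Set (Fin 5)) (m : Bool),
    BobWins St k t c P m → BobWins St k (t + 1) c P m
  | 0, _, _, _, h => h.elim
  | t + 1, _, _, true, h => fun v hv a ha => mono t _ _ _ (h v hv a ha)
  | t + 1, _, _, false, h => by
    obtain ⟨v, hv, h | ⟨a, ha, h⟩⟩ := h
    · exact ⟨v, hv, .inl h⟩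
    · exact ⟨v, hv, .inr ⟨a, ha, mono t _ _ _ h⟩⟩

theorem mono' {k t t' : ℕ} (h : t ≤ t') {c : Fin 5 → Option (Fin k)} {P : Set (Fin 5)} {m : Bool}
    (hw : BobWins St k t c P m) : BobWins St k t' c P m := by
  induction h with
  | refl => exact hw
  | step _ ih => exact mono _ _ _ _ ih

def ne1 {k : ℕ} (o : Option (Fin k)) (a : Fin k) : Bool :=
  match o with
  | none => true
  | some b => !(Nat.beq b.val a.val)

theorem ne1_iff {k : ℕ} (o : Option (Fin k)) (a : Fin k) : ne1 o a = true ↔ o ≠ some a := by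
  cases o with
  | none => simp [ne1]
  | some b =>
    simp only [ne1, Bool.not_eq_true', ne_eq, Option.some.injEq, Fin.ext_iff]
    rw [← Bool.not_eq_true, Nat.beq_eq]

def alw {k : ℕ} (c : Fin 5 → Option (Fin k)) (v : Fin 5) (a : Fin k) : Bool :=
  ne1 (c v) a && ne1 (c ⟨0, by omega⟩) a &&
    (!(Nat.beq v.val 0) || (ne1 (c ⟨1, by omega⟩) a && ne1 (c ⟨2, by omega⟩) a &&
      ne1 (c ⟨3, by omega⟩) a && ne1 (c ⟨4, by omega⟩) a))

theorem alw_iff {k : ℕ} (c : Fin 5 → Option (Fin k)) (v : Fin 5) (a : Fin k) :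
    alw c v a = true ↔ Allowed St c v a := by
  simp only [alw, Allowed, Bool.and_eq_true, Bool.or_eq_true, ne1_iff, Fin.forall_fin_succ,
    SimpleGraph.fromRel_adj]
  fin_cases v <;> simp <;> tauto

def upd {α : Type} (c : Fin 5 → α) (v : Fin 5) (a : α) : Fin 5 → α :=
  fun u => bif Nat.beq u.val v.val then a else c u

theorem upd_eq {α : Type} (c : Fin 5 → α) (v : Fin 5) (a : α) :
    upd c v a = Function.update c v a := by
  funext u
  by_cases h : u = v
  · subst h; simp [upd]
  · have : Nat.beq u.val v.val = false := by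
      rw [← Bool.not_eq_true, Nat.beq_eq]; exact fun e => h (Fin.ext e)
    simp [upd, h, this]

def nx (P : ℕ) (v : Fin 5) : ℕ :=
  bif Nat.beq (Nat.mod (Nat.lor P (Nat.pow 2 v.val)) 32) 31 then 0
  else Nat.mod (Nat.lor P (Nat.pow 2 v.val)) 32

theorem nx_def (P : ℕ) (v : Fin 5) : nx P v =
    bif Nat.beq ((P ||| 2 ^ v.val) % 32) 31 then 0 else (P ||| 2 ^ v.val) % 32 := rfl

theorem nx_eq (P : ℕ) (v : Fin 5) :
    {u : Fin 5 | (nx P v).testBit u.val = true} =
      nextPicked {u : Fin 5 | P.testBit u.val = true} v := by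
  have h1 : {u : Fin 5 | ((P ||| 2 ^ v.val) % 32).testBit u.val = true} =
      insert v {u : Fin 5 | P.testBit u.val = true} := by
    ext u
    have := Nat.testBit_mod_two_pow (P ||| 2 ^ v.val) 5 u.val
    simp only [Set.mem_ofPred_eq, Set.mem_insert_iff]
    rw [show (32 : ℕ) = 2 ^ 5 by norm_num, this, Nat.testBit_or, Nat.testBit_two_pow]
    simp only [u.isLt, decide_true, Bool.true_and, Bool.or_eq_true, decide_eq_true_eq, Fin.ext_iff]
    exact ⟨fun h => h.symm.imp_left Eq.symm, fun h => (h.imp_left Eq.symm).symm⟩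
  have h2 : ∀ q < 32, (∀ u : Fin 5, Nat.testBit q u.val = true) ↔ Nat.beq q 31 = true := by
    decide +kernel
  rw [nx_def]
  unfold nextPicked
  rw [← h1]
  have h3 := h2 _ (Nat.mod_lt (P ||| 2 ^ v.val) (by norm_num))
  split_ifs with h
  · rw [h3.mp (Set.eq_univ_iff_forall.mp h)]
    simp
  · have : Nat.beq ((P ||| 2 ^ v.val) % 32) 31 = false := by
      rw [← Bool.not_eq_true, ← h3]
      exact fun hh => h (Set.eq_univ_iff_forall.mpr hh)
    rw [this]
    rfl

def L5 : List (Fin 5) := [⟨0, by omega⟩, ⟨1, by omega⟩, ⟨2, by omega⟩, ⟨3, by omega⟩, ⟨4, by omega⟩]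
def L4 : List (Fin 4) := [⟨0, by omega⟩, ⟨1, by omega⟩, ⟨2, by omega⟩, ⟨3, by omega⟩]

theorem mem5 (v : Fin 5) : v ∈ L5 ↔ True := by fin_cases v <;> simp [L5]
theorem mem4 (v : Fin 4) : v ∈ L4 := by fin_cases v <;> simp [L4]

noncomputable def frc (n : ℕ) (f : ℕ → Bool) : Bool := Nat.rec (f 0) (fun m _ => f (Nat.succ m)) n

theorem frc_eq (n : ℕ) (f : ℕ → Bool) : frc n f = f n := by cases n <;> rfl

def tb (P v : ℕ) : Bool := Nat.beq (Nat.land (Nat.shiftRight P v) 1) 1

theorem tb_eq (P v : ℕ) : tb P v = P.testBit v := by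
  have h : Nat.land (Nat.shiftRight P v) 1 = (P >>> v) % 2 := Nat.and_one_is_mod _
  rw [tb, h, Nat.testBit, Nat.one_and_eq_mod_two]
  rcases Nat.mod_two_eq_zero_or_one (P >>> v) with h | h <;> rw [h] <;> rfl

def ev (k : ℕ) (L : List (Fin k)) (term : (Fin 5 → Option (Fin k)) → ℕ → Bool → Bool) :
    ℕ → (Fin 5 → Option (Fin k)) → ℕ → Bool → Bool
  | 0, c, P, m => term c P m
  | t + 1, c, P, true => L5.all fun v => P.testBit v.val || L.all fun a =>
      !alw c v a || ev k L term t (upd c v (some a)) (nx P v) false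
  | t + 1, c, P, false => L5.any fun v => !P.testBit v.val &&
      ((L.all fun a => !alw c v a) || L.any fun a =>
        alw c v a && ev k L term t (upd c v (some a)) (nx P v) true)

theorem ev_sound {k j : ℕ} {L : List (Fin k)} (hL : ∀ a, a ∈ L)
    {term : (Fin 5 → Option (Fin k)) → ℕ → Bool → Bool}
    (h : ∀ c P m, term c P m = true → BobWins St k j c {u | Nat.testBit P u.val = true} m) :
    ∀ t c P m, ev k L term t c P m = true → BobWins St k (j + t) c {u | Nat.testBit P u.val = true} m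
  | 0, c, P, m, he => h c P m he
  | t + 1, c, P, true, he => by
    intro v hv a ha
    simp only [ev, List.all_eq_true, mem5, hL, true_implies, Bool.or_eq_true,
      Bool.not_eq_true'] at he
    rcases he v with h1 | h1
    · exact (hv h1).elim
    rcases h1 a with h2 | h2
    · rw [(alw_iff c v a).mpr ha] at h2; exact absurd h2 (by simp)
    · rw [← upd_eq, ← nx_eq]; exact ev_sound hL h t _ _ _ h2
  | t + 1, c, P, false, he => by
    simp only [ev, List.all_eq_true, List.any_eq_true, mem5, hL, true_implies,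
      Bool.or_eq_true, Bool.and_eq_true, true_and, Bool.not_eq_true'] at he
    obtain ⟨v, hv, he⟩ := he
    refine ⟨v, by simp [hv], ?_⟩
    rcases he with h1 | ⟨a, h1, h2⟩
    · left
      intro a ha
      have := h1 a
      rw [(alw_iff c v a).mpr ha] at this
      exact absurd this (by simp)
    · right
      refine ⟨a, (alw_iff c v a).mp h1, ?_⟩
      rw [← upd_eq, ← nx_eq]; exact ev_sound hL h t _ _ _ h2

theorem ev_complete {k j : ℕ} {L : List (Fin k)} (hL : ∀ a, a ∈ L)
    {term : (Fin 5 → Option (Fin k)) → ℕ → Bool → Bool}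
    (h : ∀ c P m, BobWins St k j c {u | Nat.testBit P u.val = true} m → term c P m = true) :
    ∀ t c P m, BobWins St k (j + t) c {u | Nat.testBit P u.val = true} m → ev k L term t c P m = true
  | 0, c, P, m, he => h c P m he
  | t + 1, c, P, true, he => by
    simp only [ev, List.all_eq_true, mem5, hL, true_implies, Bool.or_eq_true,
      Bool.not_eq_true']
    intro v
    by_cases hv : Nat.testBit P v.val = true
    · exact .inl hv
    refine .inr fun a => ?_
    by_cases ha : alw c v a = true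
    · right
      have := he v hv a ((alw_iff c v a).mp ha)
      rw [← upd_eq, ← nx_eq] at this
      exact ev_complete hL h t _ _ _ this
    · left; simpa using ha
  | t + 1, c, P, false, he => by
    simp only [ev, List.all_eq_true, List.any_eq_true, mem5, hL, true_implies,
      Bool.or_eq_true, Bool.and_eq_true, true_and, Bool.not_eq_true']
    obtain ⟨v, hv, he⟩ := he
    refine ⟨v, by simpa using hv, ?_⟩
    rcases he with h1 | ⟨a, h1, h2⟩
    · left
      intro a
      rw [← Bool.not_eq_true, alw_iff]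
      exact h1 a
    · right
      rw [← upd_eq, ← nx_eq] at h2
      exact ⟨a, (alw_iff c v a).mpr h1, ev_complete hL h t _ _ _ h2⟩

def enc : Option (Fin 4) → ℕ
  | none => 0
  | some a => 2 ^ a.val

theorem tb_enc (o : Option (Fin 4)) (a : Fin 4) : (enc o).testBit a.val = !ne1 o a := by
  revert o a
  decide

noncomputable def all4 (F : ℕ) (g : ℕ → Bool) : Bool :=
  frc F fun F => (tb F 0 || g 1) && ((tb F 1 || g 2) && ((tb F 2 || g 4) && (tb F 3 || g 8)))

noncomputable def any4 (F : ℕ) (g : ℕ → Bool) : Bool :=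
  frc F fun F => (tb F 0 && (tb F 1 && (tb F 2 && tb F 3))) ||
    ((!tb F 0 && g 1) || ((!tb F 1 && g 2) || ((!tb F 2 && g 4) || (!tb F 3 && g 8))))

theorem all4_eq (F : ℕ) (g : ℕ → Bool) (al h : Fin 4 → Bool) (h1 : ∀ a, F.testBit a.val = !al a)
    (h2 : ∀ a, g (2 ^ a.val) = h a) : all4 F g = L4.all fun a => !al a || h a := by
  simp only [all4, frc_eq, tb_eq, L4, List.all_cons, List.all_nil, Bool.and_true, ← h1, ← h2]
  rfl

theorem any4_eq (F : ℕ) (g : ℕ → Bool) (al h : Fin 4 → Bool) (h1 : ∀ a, F.testBit a.val = !al a)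
    (h2 : ∀ a, g (2 ^ a.val) = h a) :
    any4 F g = ((L4.all fun a => !al a) || L4.any fun a => al a && h a) := by
  have h3 : ∀ a, al a = !F.testBit a.val := fun a => by rw [h1, Bool.not_not]
  simp only [any4, frc_eq, tb_eq, L4, List.all_cons, List.all_nil, List.any_cons, List.any_nil,
    Bool.and_true, Bool.or_false, h3, ← h2, Bool.not_not]
  rfl

noncomputable def step (ih : ℕ → ℕ → ℕ → ℕ → ℕ → ℕ → Bool → Bool) (c0 c1 c2 c3 c4 P : ℕ)
    (m : Bool) : Bool :=
  (bif m then
      (tb P 0 || frc (nx P ⟨0, by omega⟩) fun Q => all4 (Nat.lor c0 (Nat.lor (Nat.lor c1 c2) (Nat.lor c3 c4))) fun x => ih x c1 c2 c3 c4 Q false) &&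
      ((tb P 1 || frc (nx P ⟨1, by omega⟩) fun Q => all4 (Nat.lor c1 c0) fun x => ih c0 x c2 c3 c4 Q false) &&
      ((tb P 2 || frc (nx P ⟨2, by omega⟩) fun Q => all4 (Nat.lor c2 c0) fun x => ih c0 c1 x c3 c4 Q false) &&
      ((tb P 3 || frc (nx P ⟨3, by omega⟩) fun Q => all4 (Nat.lor c3 c0) fun x => ih c0 c1 c2 x c4 Q false) &&
      ((tb P 4 || frc (nx P ⟨4, by omega⟩) fun Q => all4 (Nat.lor c4 c0) fun x => ih c0 c1 c2 c3 x Q false)))))
    else
      (!tb P 0 && frc (nx P ⟨0, by omega⟩) fun Q => any4 (Nat.lor c0 (Nat.lor (Nat.lor c1 c2) (Nat.lor c3 c4))) fun x => ih x c1 c2 c3 c4 Q true) ||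
      ((!tb P 1 && frc (nx P ⟨1, by omega⟩) fun Q => any4 (Nat.lor c1 c0) fun x => ih c0 x c2 c3 c4 Q true) ||
      ((!tb P 2 && frc (nx P ⟨2, by omega⟩) fun Q => any4 (Nat.lor c2 c0) fun x => ih c0 c1 x c3 c4 Q true) ||
      ((!tb P 3 && frc (nx P ⟨3, by omega⟩) fun Q => any4 (Nat.lor c3 c0) fun x => ih c0 c1 c2 x c4 Q true) ||
      ((!tb P 4 && frc (nx P ⟨4, by omega⟩) fun Q => any4 (Nat.lor c4 c0) fun x => ih c0 c1 c2 c3 x Q true))))))

noncomputable def ev2 (term : ℕ → ℕ → ℕ → ℕ → ℕ → ℕ → Bool → Bool) (t : ℕ) :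
    ℕ → ℕ → ℕ → ℕ → ℕ → ℕ → Bool → Bool :=
  Nat.rec term (fun _ ih => step ih) t

theorem forb0 (c : Fin 5 → Option (Fin 4)) (a : Fin 4) :
    (Nat.lor (enc (c ⟨0, by omega⟩)) (Nat.lor (Nat.lor (enc (c ⟨1, by omega⟩)) (enc (c ⟨2, by omega⟩)))
      (Nat.lor (enc (c ⟨3, by omega⟩)) (enc (c ⟨4, by omega⟩))))).testBit a.val =
      !alw c ⟨0, by omega⟩ a := by
  simp only [Nat.lor_eq, Nat.testBit_or, tb_enc, alw]
  generalize ne1 (c ⟨0, _⟩) a = b0
  generalize ne1 (c ⟨1, _⟩) a = b1
  generalize ne1 (c ⟨2, _⟩) a = b2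
  generalize ne1 (c ⟨3, _⟩) a = b3
  generalize ne1 (c ⟨4, _⟩) a = b4
  revert b0 b1 b2 b3 b4
  decide

theorem forb1 (c : Fin 5 → Option (Fin 4)) (v : Fin 5) (hv : Nat.beq v.val 0 = false) (a : Fin 4) :
    (Nat.lor (enc (c v)) (enc (c ⟨0, by omega⟩))).testBit a.val = !alw c v a := by
  simp only [Nat.lor_eq, Nat.testBit_or, tb_enc, alw, hv]
  simp

theorem ev2_eq (term : ℕ → ℕ → ℕ → ℕ → ℕ → ℕ → Bool → Bool) (t : ℕ) :
    ∀ (c : Fin 5 → Option (Fin 4)) (P : ℕ) (m : Bool),
      ev2 term t (enc (c ⟨0, by omega⟩)) (enc (c ⟨1, by omega⟩)) (enc (c ⟨2, by omega⟩)) (enc (c ⟨3, by omega⟩)) (enc (c ⟨4, by omega⟩)) P m =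
      ev 4 L4 (fun c P m => term (enc (c ⟨0, by omega⟩)) (enc (c ⟨1, by omega⟩)) (enc (c ⟨2, by omega⟩)) (enc (c ⟨3, by omega⟩)) (enc (c ⟨4, by omega⟩)) P m) t c P m := by
  induction t with
  | zero => intro c P m; rfl
  | succ t ih =>
    intro c P m
    cases m
    · simp only [ev, L5, List.any_cons, List.any_nil, Bool.or_false]
      show step (ev2 term t) _ _ _ _ _ _ _ = _
      unfold step
      simp only [cond_false, frc_eq, tb_eq]
      congr 2
      · exact any4_eq _ _ _ _ (forb0 c) (fun a => ih (upd c ⟨0, by omega⟩ (some a)) _ _)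
      · congr 1; exact any4_eq _ _ _ _ (forb1 c _ rfl) (fun a => ih (upd c ⟨1, by omega⟩ (some a)) _ _)
      congr 2
      · exact any4_eq _ _ _ _ (forb1 c _ rfl) (fun a => ih (upd c ⟨2, by omega⟩ (some a)) _ _)
      · congr 1; exact any4_eq _ _ _ _ (forb1 c _ rfl) (fun a => ih (upd c ⟨3, by omega⟩ (some a)) _ _)
      · congr 1; exact any4_eq _ _ _ _ (forb1 c _ rfl) (fun a => ih (upd c ⟨4, by omega⟩ (some a)) _ _)
    · simp only [ev, L5, List.all_cons, List.all_nil, Bool.and_true]
      show step (ev2 term t) _ _ _ _ _ _ _ = _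
      unfold step
      simp only [cond_true, frc_eq, tb_eq]
      congr 2
      · exact all4_eq _ _ _ _ (forb0 c) (fun a => ih (upd c ⟨0, by omega⟩ (some a)) _ _)
      · congr 1; exact all4_eq _ _ _ _ (forb1 c _ rfl) (fun a => ih (upd c ⟨1, by omega⟩ (some a)) _ _)
      congr 2
      · exact all4_eq _ _ _ _ (forb1 c _ rfl) (fun a => ih (upd c ⟨2, by omega⟩ (some a)) _ _)
      · congr 1; exact all4_eq _ _ _ _ (forb1 c _ rfl) (fun a => ih (upd c ⟨3, by omega⟩ (some a)) _ _)
      · congr 1; exact all4_eq _ _ _ _ (forb1 c _ rfl) (fun a => ih (upd c ⟨4, by omega⟩ (some a)) _ _)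

def code (c0 c1 c2 c3 c4 : ℕ) : ℕ := c0 + 16 * c1 + 256 * c2 + 4096 * c3 + 65536 * c4

def look (T : List ℕ) (m0 : Bool) (c0 c1 c2 c3 c4 P : ℕ) (m : Bool) : Bool :=
  (m == m0) && Nat.beq P 0 && T.any (Nat.beq (code c0 c1 c2 c3 c4))

def allT (T : List ℕ) (f : ℕ → ℕ → ℕ → ℕ → ℕ → Bool) : Bool :=
  T.all fun x => f (x % 16) (x / 16 % 16) (x / 256 % 16) (x / 4096 % 16) (x / 65536)

theorem enc_lt (o : Option (Fin 4)) : enc o < 16 := by
  revert o
  decide

theorem look_spec {T : List ℕ} {m0 : Bool} {f : ℕ → ℕ → ℕ → ℕ → ℕ → Bool} (hT : allT T f = true)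
    {c : Fin 5 → Option (Fin 4)} {P : ℕ} {m : Bool}
    (h : look T m0 (enc (c ⟨0, by omega⟩)) (enc (c ⟨1, by omega⟩)) (enc (c ⟨2, by omega⟩)) (enc (c ⟨3, by omega⟩)) (enc (c ⟨4, by omega⟩)) P m = true) :
    m = m0 ∧ P = 0 ∧ f (enc (c ⟨0, by omega⟩)) (enc (c ⟨1, by omega⟩)) (enc (c ⟨2, by omega⟩)) (enc (c ⟨3, by omega⟩)) (enc (c ⟨4, by omega⟩)) = true := by
  simp only [look, Bool.and_eq_true, beq_iff_eq, Nat.beq_eq, List.any_eq_true] at h
  obtain ⟨⟨h0, p0⟩, x, hx, h⟩ := h
  refine ⟨h0, p0, ?_⟩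
  have := List.all_eq_true.mp hT x hx
  have l0 := enc_lt (c ⟨0, by omega⟩)
  have l1 := enc_lt (c ⟨1, by omega⟩)
  have l2 := enc_lt (c ⟨2, by omega⟩)
  have l3 := enc_lt (c ⟨3, by omega⟩)
  unfold code at h
  convert this using 2 <;> omega

def T3 : List ℕ := [70216, 70276, 70696, 70786, 71716, 71746, 74056, 74116, 74312, 74372, 74776, 74792, 74824, 75796, 75812, 75908, 82216, 82306, 82456, 82472, 82504, 82984, 83074, 83986, 84034, 84098, 98596, 98626, 98836, 98852, 98948, 99346, 99394, 99458, 100388, 100418, 135496, 135556, 135752, 135812, 136216, 136232, 136264, 137236, 137252, 137348, 139592, 139652, 140312, 141332, 147736, 147752, 147784, 147992, 148504, 164116, 164132, 164228, 164372, 165908, 266536, 266626, 266776, 266792, 266824, 267304, 267394, 268306, 268354, 268418, 270616, 270632, 270664, 270872, 271384, 278824, 278914, 279064, 280594, 295186, 295234, 295298, 295954, 528676, 528706, 528916, 528932, 529028, 529426, 529474, 529538, 530468, 530498, 532756, 532772,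 532868, 533012, 534548, 540946, 540994, 541058, 542738, 557348, 557378, 557588, 558098]
def T2 : List ℕ := [69954, 70018, 70164, 70168, 70674, 70680, 70722, 71698, 71700, 71746, 74004, 74008, 74260, 74264, 82194, 82200, 82242, 82306, 82456, 82962, 83986, 98578, 98580, 98626, 98690, 98836, 99346, 100370, 135444, 135448, 135700, 135704, 136216, 137236, 139540, 139544, 139841, 139905, 140321, 140353, 140417, 141345, 141377, 141441, 147736, 148001, 148033, 148097, 148513, 149537, 164116, 164385, 164417, 164481, 164897, 165921, 266514, 266520, 266562, 266626, 266776, 267282, 267288, 268306, 270616, 270881, 270913, 270977, 271393, 271425, 271489, 272417, 272449, 272513, 278802, 278808, 279073, 279105, 279169, 279585, 280609, 295186, 295457, 295489, 295553, 295969, 296993, 528658, 528660, 528706, 528770, 528916, 529426, 530450, 530452, 532756, 533025, 533057, 533121, 533537, 533569, 533633, 534561, 534593, 534657, 540946, 541217, 541249, 541313, 541729, 542753, 557330, 557332,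 557601, 557633, 557697, 558113, 559137]
def S2 : List ℕ := [139809, 140321, 140353, 141345, 141441, 148001, 148033, 148545, 164385, 164481, 166017, 270881, 270913, 271425, 279105, 280641, 280705, 296001, 296065, 533025, 533121, 534657, 541761, 541825, 557697]

def t0 : ℕ → ℕ → ℕ → ℕ → ℕ → ℕ → Bool → Bool := fun _ _ _ _ _ _ _ => false

theorem c3 : allT T3 (fun a b x d e => ev2 t0 5 a b x d e 0 true) = true := by
  decide +kernel
theorem c2 : allT T2 (fun a b x d e => ev2 (look T3 true) 5 a b x d e 0 false) = true := by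
  decide +kernel
theorem c1 : ev2 (look T2 false) 5 0 0 0 0 0 0 true = true := by
  decide +kernel
theorem d2 : allT S2 (fun a b x d e => !ev2 t0 5 a b x d e 0 false) = true := by
  decide +kernel
theorem d1 : ev2 (fun a b x d e P m => !look S2 false a b x d e P m) 5 0 0 0 0 0 0 true = false := by
  decide +kernel

theorem z {k : ℕ} {L : List (Fin k)} (hL : ∀ a, a ∈ L) (t : ℕ) (c : Fin 5 → Option (Fin k)) (P : ℕ)
    (m : Bool) (h : ev k L (fun _ _ _ => false) t c P m = true) : BobWins St k t c {u | Nat.testBit P u.val = true} m := by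
  simpa using ev_sound (j := 0) hL (fun _ _ _ h => absurd h (by simp)) t c P m h

theorem result :
    (∀ k, 1 ≤ k → k ≤ 4 → BobWins (SimpleGraph.fromRel fun u _ : Fin 5 => u = 0) k 15
      (fun _ => none) ∅ true) ∧
    ¬ BobWins (SimpleGraph.fromRel fun u _ : Fin 5 => u = 0) 4 10 (fun _ => none) ∅ true := by
  have he : (∅ : Set (Fin 5)) = {u | Nat.testBit 0 u.val = true} := by simp
  rw [he]
  constructor
  · intro k h1 h4
    interval_cases k
    · exact mono' (by norm_num) (z List.mem_finRange 2 _ _ _ (by decide +kernel))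
    · exact mono' (by norm_num) (z List.mem_finRange 6 _ _ _ (by decide +kernel))
    · exact mono' (by norm_num) (z List.mem_finRange 6 _ _ _ (by decide +kernel))
    · have h3 : ∀ (c : Fin 5 → Option (Fin 4)) P m, look T3 true (enc (c ⟨0, by omega⟩)) (enc (c ⟨1, by omega⟩)) (enc (c ⟨2, by omega⟩)) (enc (c ⟨3, by omega⟩)) (enc (c ⟨4, by omega⟩)) P m = true →
          BobWins St 4 5 c {u | Nat.testBit P u.val = true} m := by
        intro c P m h
        obtain ⟨rfl, rfl, ht⟩ := look_spec c3 h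
        exact z mem4 5 _ _ _ ((ev2_eq t0 5 c 0 true).symm.trans ht)
      have h2 : ∀ (c : Fin 5 → Option (Fin 4)) P m, look T2 false (enc (c ⟨0, by omega⟩)) (enc (c ⟨1, by omega⟩)) (enc (c ⟨2, by omega⟩)) (enc (c ⟨3, by omega⟩)) (enc (c ⟨4, by omega⟩)) P m = true →
          BobWins St 4 10 c {u | Nat.testBit P u.val = true} m := by
        intro c P m h
        obtain ⟨rfl, rfl, ht⟩ := look_spec c2 h
        exact ev_sound mem4 h3 5 _ _ _ ((ev2_eq _ 5 c 0 false).symm.trans ht)
      exact ev_sound mem4 h2 5 _ _ _ ((ev2_eq _ 5 (fun _ => none) 0 true).symm.trans c1)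
  · intro hw
    have h2 : ∀ (c : Fin 5 → Option (Fin 4)) P m,
        BobWins St 4 5 c {u | Nat.testBit P u.val = true} m →
        (!look S2 false (enc (c ⟨0, by omega⟩)) (enc (c ⟨1, by omega⟩)) (enc (c ⟨2, by omega⟩)) (enc (c ⟨3, by omega⟩)) (enc (c ⟨4, by omega⟩)) P m) = true := by
      intro c P m hb
      rw [Bool.not_eq_true', ← Bool.not_eq_true]
      intro h
      obtain ⟨rfl, rfl, h1⟩ := look_spec d2 h
      have h2 := ev_complete (j := 0) mem4 (term := fun _ _ _ => false) (fun _ _ _ h => h.elim) 5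
        _ _ _ hb
      have h3 := (ev2_eq t0 5 c 0 false).trans h2
      simp only [h3] at h1
      exact absurd h1 (by simp)
    have h3 := (ev2_eq (fun a b x d e P m => !look S2 false a b x d e P m) 5 (fun _ => none) 0
      true).trans (ev_complete mem4 h2 5 _ _ _ hw)
    exact absurd (d1.symm.trans h3) (by simp)

end Pool.Agent.Results.MP_16080b_co.Counter
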